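import Pool.Agent.H89.Lit.Fin

set_option autoImplicit false

/-!
# Littlestone dimension: asymptotics of the Ramsey numbers
-/

namespace Pool.Agent.H89.Lit

open Finset Filter Topology

/-- the upper bound for `1 ≤ d`, `d + 1 ≤ 2 (k - 1)` -/
theorem upper_simple (d k : ℕ) (hd : 1 ≤ d) (hdk : d + 1 ≤ 2 * (k - 1)) :
    Real.log (RamseyLittlestone d k) ≤ (d + 1) * (2 + Real.log (k / d)) + 1 := by
  have h1 := log_ramsey_le d k
  have h2 := log_S_le (2 * (k - 1)) (d + 1) (by omega) hdk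
  have hd0 : (0 : ℝ) < d := by exact_mod_cast hd
  have hk0 : (0 : ℝ) < k := by exact_mod_cast (by omega : 0 < k)
  have hk1 : (1 : ℝ) ≤ k := by exact_mod_cast (by omega : 1 ≤ k)
  have hl2 : Real.log 2 ≤ 1 := by
    have := Real.log_two_lt_d9
    linarith
  have e1 : (((2 * (k - 1) : ℕ) : ℝ)) = 2 * (k - 1) := by
    rw [Nat.cast_mul, Nat.cast_sub (by omega)]
    norm_num
  have e2 : (((d + 1 : ℕ) : ℝ)) = d + 1 := by push_cast; ring
  rw [e1, e2] at h2
  have hk2 : (0 : ℝ) < 2 * (k - 1) := by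
    have : 0 < 2 * (k - 1) := by omega
    have h3 : (0 : ℝ) < ((2 * (k - 1) : ℕ) : ℝ) := by exact_mod_cast this
    rwa [e1] at h3
  have h3 : Real.log (2 * ((k : ℝ) - 1) / (d + 1)) ≤ 1 + Real.log (k / d) := by
    calc Real.log (2 * ((k : ℝ) - 1) / (d + 1)) ≤ Real.log (2 * (k / d)) := by
          apply Real.log_le_log (by positivity)
          rw [mul_div_assoc', div_le_div_iff₀ (by positivity) hd0]
          nlinarith
      _ = Real.log 2 + Real.log (k / d) := Real.log_mul (by norm_num) (by positivity)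
      _ ≤ 1 + Real.log (k / d) := by linarith
  have h4 : ((d : ℝ) + 1) * (1 + Real.log (2 * ((k : ℝ) - 1) / (d + 1))) ≤
      (d + 1) * (1 + (1 + Real.log (k / d))) := by
    apply mul_le_mul_of_nonneg_left _ (by positivity)
    linarith
  linarith

/-- **Uniform asymptotics.** -/
theorem lit_sharp (ε : ℝ) (hε : 0 < ε) : ∃ C : ℝ, 1 ≤ C ∧ ∀ d k : ℕ, C ≤ d → C * d ≤ k →
    |Real.log (RamseyLittlestone d k) - d * Real.log (k / d)| ≤ ε * (d * Real.log (k / d)) := by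
  obtain ⟨δ, hδ⟩ : ∃ δ : ℝ, δ = min ε 1 := ⟨_, rfl⟩
  have hδ0 : 0 < δ := by rw [hδ]; positivity
  have hδ1 : δ ≤ 1 := by rw [hδ]; exact min_le_right _ _
  have hδε : δ ≤ ε := by rw [hδ]; exact min_le_left _ _
  obtain ⟨C2, hC2, hlo⟩ := lit_lower_asy δ hδ0 hδ1
  refine ⟨max C2 (max 3 (max (8 / δ) (Real.exp (8 / δ)))), le_trans hC2 (le_max_left _ _), ?_⟩
  intro d k h1 h2
  have hC0 : (0 : ℝ) ≤ d := Nat.cast_nonneg _
  have hCm : ∀ c, c ≤ max C2 (max 3 (max (8 / δ) (Real.exp (8 / δ)))) → c ≤ d ∧ c * d ≤ k :=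
    fun c hc => ⟨hc.trans h1, (mul_le_mul_of_nonneg_right hc hC0).trans h2⟩
  obtain ⟨b1, b2⟩ := hCm C2 (le_max_left _ _)
  obtain ⟨c1, c2⟩ := hCm 3 ((le_max_left _ _).trans (le_max_right _ _))
  obtain ⟨e1, e2⟩ := hCm (8 / δ) ((le_max_left _ _).trans ((le_max_right _ _).trans (le_max_right _ _)))
  obtain ⟨f1, f2⟩ := hCm (Real.exp (8 / δ))
    ((le_max_right _ _).trans ((le_max_right _ _).trans (le_max_right _ _)))
  have hd0 : (0 : ℝ) < d := by linarith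
  have hd3 : 3 ≤ d := by exact_mod_cast c1
  have hk3 : 3 * d ≤ k := by exact_mod_cast c2
  have hlog : 8 / δ ≤ Real.log ((k : ℝ) / d) := by
    rw [Real.le_log_iff_exp_le (by have : (0 : ℝ) < k := by linarith
                                   positivity), le_div_iff₀ hd0]
    exact f2
  have h8 : 8 ≤ 8 / δ := by rw [le_div_iff₀ hδ0]; linarith
  obtain ⟨n, G, g1, g2, g3, g4⟩ := hlo d k b1 b2
  have hlower := g4.trans (log_le_of_good ⟨G, g1, g2, g3⟩)
  have hupper := upper_simple d k (by omega) (by omega)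
  obtain ⟨L, hL⟩ : ∃ L : ℝ, L = Real.log ((k : ℝ) / d) := ⟨_, rfl⟩
  rw [← hL] at hlog hlower hupper ⊢
  have hM : 0 ≤ (d : ℝ) * L := by
    have : 0 ≤ L := by linarith
    positivity
  have hmin : δ * (d * L) ≤ ε * (d * L) := mul_le_mul_of_nonneg_right hδε hM
  have k1 : 8 ≤ δ * L := by rw [div_le_iff₀ hδ0] at hlog; linarith
  have k2 : 8 ≤ δ * d := by rw [div_le_iff₀ hδ0] at e1; linarith
  have k3 : (d : ℝ) * 8 ≤ d * (δ * L) := mul_le_mul_of_nonneg_left k1 hd0.le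
  have k4 : 8 * L ≤ (δ * d) * L := mul_le_mul_of_nonneg_right k2 (by linarith)
  rw [abs_le]
  constructor
  · nlinarith
  · nlinarith

/-- **Limit form.** -/
theorem lit_limit (d : ℕ → ℕ) (h1 : Tendsto d atTop atTop)
    (h2 : Tendsto (fun k => (d k : ℝ) / k) atTop (𝓝 0)) :
    Tendsto (fun k => Real.log (RamseyLittlestone (d k) k) / (d k * Real.log (k / d k))) atTop
      (𝓝 1) := by
  rw [Metric.tendsto_atTop]
  intro ε hε
  obtain ⟨C, hC, h⟩ := lit_sharp (ε / 2) (by positivity)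
  have hC0 : 0 < C := by linarith
  have e1 : ∀ᶠ k : ℕ in atTop, C ≤ (d k : ℝ) :=
    (tendsto_natCast_atTop_atTop.comp h1).eventually_ge_atTop C
  have e2 : ∀ᶠ k : ℕ in atTop, (d k : ℝ) / k ≤ 1 / max C 3 :=
    (h2.eventually_lt_const (show (0 : ℝ) < 1 / max C 3 by positivity)).mono fun _ h => h.le
  obtain ⟨K, hK⟩ := eventually_atTop.1 ((e1.and e2).and (eventually_ge_atTop 2))
  refine ⟨K, fun k hk => ?_⟩
  obtain ⟨⟨g1, g2⟩, g3⟩ := hK k hk
  have hk2 : (2 : ℝ) ≤ k := by exact_mod_cast g3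
  have hk0 : (0 : ℝ) < k := by linarith
  have hd0 : (0 : ℝ) < d k := lt_of_lt_of_le hC0 g1
  have g2' : max C 3 * d k ≤ k := by
    rw [div_le_div_iff₀ hk0 (by positivity)] at g2
    linarith
  have g4 : C * d k ≤ k := (mul_le_mul_of_nonneg_right (le_max_left _ _) hd0.le).trans g2'
  have g5 : 3 * (d k : ℝ) ≤ k := (mul_le_mul_of_nonneg_right (le_max_right _ _) hd0.le).trans g2'
  have g6 := h (d k) k g1 g4
  have hlog : 1 ≤ Real.log ((k : ℝ) / d k) := by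
    have hx3 : (3 : ℝ) ≤ k / d k := by rw [le_div_iff₀ hd0]; exact g5
    rw [Real.le_log_iff_exp_le (by linarith)]
    have := Real.exp_one_lt_d9
    linarith
  have hM : 0 < (d k : ℝ) * Real.log (k / d k) := by positivity
  rw [Real.dist_eq]
  have e3 : Real.log (RamseyLittlestone (d k) k) / (d k * Real.log (k / d k)) - 1 =
      (Real.log (RamseyLittlestone (d k) k) - d k * Real.log (k / d k)) /
        (d k * Real.log (k / d k)) := by
    field_simp
  rw [e3, abs_div, abs_of_pos hM, div_lt_iff₀ hM]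
  have : ε / 2 * (d k * Real.log (k / d k)) < ε * (d k * Real.log (k / d k)) := by nlinarith
  linarith

theorem tendsto_floor_div (ε : ℝ) (hε : 0 < ε) :
    Tendsto (fun k : ℕ => ((⌊ε * k⌋₊ : ℕ) : ℝ) / k) atTop (𝓝 ε) := by
  have h := (tendsto_nat_floor_mul_div_atTop hε.le (R := ℝ)).comp
    (tendsto_natCast_atTop_atTop (R := ℝ))
  exact h

/-- **Linear Littlestone dimension, upper bound** -/
theorem lit_entropy (ε : ℝ) (hε : 0 < ε) (hε1 : ε < 1) (η : ℝ) (hη : 0 < η) :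
    ∀ᶠ k : ℕ in atTop, Real.log (RamseyLittlestone ⌊ε * k⌋₊ k) / k ≤
      2 * Real.binEntropy (ε / 2) + η := by
  have h0 := tendsto_floor_div ε hε
  have hinv : Tendsto (fun k : ℕ => 1 / (k : ℝ)) atTop (𝓝 0) := tendsto_one_div_atTop_nhds_zero_nat
  -- `h / k → 2`
  have h1 : Tendsto (fun k : ℕ => ((2 * (k - 1) : ℕ) : ℝ) / k) atTop (𝓝 2) := by
    have e : Tendsto (fun k : ℕ => 2 - 2 * (1 / (k : ℝ))) atTop (𝓝 (2 - 2 * 0)) :=
      tendsto_const_nhds.sub (hinv.const_mul 2)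
    rw [mul_zero, sub_zero] at e
    refine e.congr' ?_
    filter_upwards [eventually_ge_atTop 1] with k hk
    have hk0 : (0 : ℝ) < k := by exact_mod_cast hk
    rw [Nat.cast_mul, Nat.cast_sub hk]
    field_simp
    norm_num
  have h2 : Tendsto (fun k : ℕ => ((⌊ε * k⌋₊ + 1 : ℕ) : ℝ) / k) atTop (𝓝 ε) := by
    have e := h0.add hinv
    rw [add_zero] at e
    refine e.congr' ?_
    filter_upwards [eventually_ge_atTop 1] with k hk
    have hk0 : (0 : ℝ) < k := by exact_mod_cast hk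
    push_cast
    field_simp
  have h3 : Tendsto (fun k : ℕ => ((⌊ε * k⌋₊ + 1 : ℕ) : ℝ) / ((2 * (k - 1) : ℕ) : ℝ)) atTop
      (𝓝 (ε / 2)) := by
    refine (h2.div h1 (by norm_num)).congr' ?_
    filter_upwards [eventually_ge_atTop 1] with k hk
    have hk0 : (0 : ℝ) < k := by exact_mod_cast hk
    simp only [Pi.div_apply]
    rw [div_div_div_cancel_right₀ hk0.ne']
  have h4 : Tendsto (fun k : ℕ => Real.binEntropy
      (((⌊ε * k⌋₊ + 1 : ℕ) : ℝ) / ((2 * (k - 1) : ℕ) : ℝ))) atTop (𝓝 (Real.binEntropy (ε / 2))) :=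
    (Real.binEntropy_continuous.tendsto _).comp h3
  have h5 : Tendsto (fun k : ℕ => ((2 * (k - 1) : ℕ) : ℝ) / k * Real.binEntropy
      (((⌊ε * k⌋₊ + 1 : ℕ) : ℝ) / ((2 * (k - 1) : ℕ) : ℝ)) + Real.log 2 * (1 / k)) atTop
      (𝓝 (2 * Real.binEntropy (ε / 2) + Real.log 2 * 0)) :=
    (h1.mul h4).add (hinv.const_mul _)
  rw [mul_zero, add_zero] at h5
  have h6 := h5.eventually_lt_const (show 2 * Real.binEntropy (ε / 2) <
    2 * Real.binEntropy (ε / 2) + η by linarith)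
  have h7 := h3.eventually_lt_const (show ε / 2 < 1 / 2 by linarith)
  filter_upwards [h6, h7, eventually_ge_atTop 2] with k hk hk2 hk3
  refine le_trans ?_ hk.le
  have hk0 : (0 : ℝ) < k := by exact_mod_cast (by omega : 0 < k)
  have hh0 : (0 : ℝ) < ((2 * (k - 1) : ℕ) : ℝ) := by exact_mod_cast (by omega : 0 < 2 * (k - 1))
  have h8 := log_ramsey_le ⌊ε * k⌋₊ k
  have h9 := log_S_le_entropy (2 * (k - 1)) (⌊ε * k⌋₊ + 1) (by omega) (by
    rw [div_lt_div_iff₀ hh0 (by norm_num)] at hk2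
    have : ((2 * (⌊ε * k⌋₊ + 1) : ℕ) : ℝ) < ((2 * (k - 1) : ℕ) : ℝ) := by
      push_cast at hk2 ⊢
      linarith
    have : 2 * (⌊ε * k⌋₊ + 1) < 2 * (k - 1) := by exact_mod_cast this
    omega)
  rw [div_le_iff₀ hk0]
  refine (h8.trans (add_le_add_left h9 _)).trans (le_of_eq ?_)
  field_simp

/-- **Linear Littlestone dimension**: the growth rate is `(1 + o(1)) ε log (1 / ε)`. -/
theorem lit_linear (δ : ℝ) (hδ : 0 < δ) : ∃ ε₀ : ℝ, 0 < ε₀ ∧ ∀ ε : ℝ, 0 < ε → ε ≤ ε₀ →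
    ∀ᶠ k : ℕ in atTop, |Real.log (RamseyLittlestone ⌊ε * k⌋₊ k) / k - ε * Real.log (1 / ε)| ≤
      δ * (ε * Real.log (1 / ε)) := by
  obtain ⟨C, hC, h⟩ := lit_sharp (δ / 2) (by positivity)
  have hC0 : 0 < C := by linarith
  refine ⟨min (1 / C) (1 / 3), by positivity, ?_⟩
  intro ε hε hε0
  have hεC : ε ≤ 1 / C := hε0.trans (min_le_left _ _)
  have hε3 : ε ≤ 1 / 3 := hε0.trans (min_le_right _ _)
  have hlogε : 0 < Real.log (1 / ε) := Real.log_pos (by
    rw [lt_div_iff₀ hε]; linarith)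
  have h0 := tendsto_floor_div ε hε
  -- `d log (k / d) / k → ε log (1 / ε)`
  have h1 : Tendsto (fun k : ℕ => ((⌊ε * k⌋₊ : ℕ) : ℝ) / k *
      Real.log (1 / (((⌊ε * k⌋₊ : ℕ) : ℝ) / k))) atTop (𝓝 (ε * Real.log (1 / ε))) := by
    apply h0.mul
    apply (Real.continuousAt_log (by positivity)).tendsto.comp
    exact tendsto_const_nhds.div h0 hε.ne'
  have hP : 0 < ε * Real.log (1 / ε) := by positivity
  have h2 : ∀ᶠ k : ℕ in atTop, |((⌊ε * k⌋₊ : ℕ) : ℝ) / k *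
      Real.log (1 / (((⌊ε * k⌋₊ : ℕ) : ℝ) / k)) - ε * Real.log (1 / ε)| <
      (min (δ / 4) (1 / 2)) * (ε * Real.log (1 / ε)) := by
    have := Metric.tendsto_atTop.1 h1 ((min (δ / 4) (1 / 2)) * (ε * Real.log (1 / ε))) (by positivity)
    obtain ⟨N, hN⟩ := this
    filter_upwards [eventually_ge_atTop N] with k hk
    exact hN k hk
  have h3 : ∀ᶠ k : ℕ in atTop, C ≤ ((⌊ε * k⌋₊ : ℕ) : ℝ) := by
    have : Tendsto (fun k : ℕ => ((⌊ε * k⌋₊ : ℕ) : ℝ)) atTop atTop :=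
      tendsto_natCast_atTop_atTop.comp (tendsto_nat_floor_atTop.comp
        (tendsto_natCast_atTop_atTop.const_mul_atTop hε))
    exact this.eventually_ge_atTop C
  filter_upwards [h2, h3, eventually_ge_atTop 1] with k hk2 hk3 hk1
  have hk0 : (0 : ℝ) < k := by exact_mod_cast hk1
  obtain ⟨d, hd⟩ : ∃ d : ℕ, d = ⌊ε * k⌋₊ := ⟨_, rfl⟩
  rw [← hd] at hk2 hk3 ⊢
  have hd0 : (0 : ℝ) < d := by linarith
  have hdk : (d : ℝ) ≤ ε * k := by rw [hd]; exact Nat.floor_le (by positivity)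
  have hCd : C * d ≤ k := by
    have h4 : C * (d : ℝ) ≤ C * (ε * k) := mul_le_mul_of_nonneg_left hdk hC0.le
    have h5 : C * ε ≤ 1 := by rw [le_div_iff₀ hC0] at hεC; linarith
    nlinarith
  have h6 := h d k hk3 hCd
  have h7 : (d : ℝ) / k * Real.log (1 / (d / k)) = (d * Real.log (k / d)) / k := by
    rw [one_div_div]; ring
  rw [h7] at hk2
  obtain ⟨A, hA⟩ : ∃ A : ℝ, A = d * Real.log (k / d) := ⟨_, rfl⟩
  obtain ⟨P, hP'⟩ : ∃ P : ℝ, P = ε * Real.log (1 / ε) := ⟨_, rfl⟩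
  rw [← hA] at h6 hk2
  rw [← hP'] at hk2 hP ⊢
  have h8 : |Real.log (RamseyLittlestone d k) / k - A / k| ≤ δ / 2 * (A / k) := by
    rw [← sub_div, abs_div, abs_of_pos hk0, mul_div_assoc']
    exact div_le_div_of_nonneg_right h6 hk0.le
  have h9 : (min (δ / 4) (1 / 2)) * P ≤ δ / 4 * P := mul_le_mul_of_nonneg_right (min_le_left _ _) hP.le
  have h10 : (min (δ / 4) (1 / 2)) * P ≤ 1 / 2 * P :=
    mul_le_mul_of_nonneg_right (min_le_right _ _) hP.le
  rw [abs_lt] at hk2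
  rw [abs_le] at h8 ⊢
  have h12 : δ / 2 * (A / k) ≤ δ / 2 * (P + 1 / 2 * P) := by
    apply mul_le_mul_of_nonneg_left _ (by positivity)
    linarith [hk2.2]
  constructor
  · linarith [hk2.1, h8.1]
  · linarith [hk2.2, h8.2]

end Pool.Agent.H89.Lit
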