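import Mathlib

set_option autoImplicit false

/-!
# Littlestone dimension of a colouring: definitions
-/

namespace Pool.Agent.H89.Lit

/-- `MistakeTree G d A`: there is a complete binary tree of depth `d` whose inner nodes are labelled
with vertices of `G`, such that for each of the `2 ^ d` branches there is a vertex `v ∈ A` which is
adjacent to exactly those labels `x` of the branch where the branch turns to the first child.
(Depth `0`: there is a vertex in `A`.) -/
def MistakeTree {V : Type} (G : SimpleGraph V) : ℕ → Set V → Prop
  | 0, A => A.Nonempty
  | d + 1, A => ∃ x : V, MistakeTree G d {v ∈ A | G.Adj x v} ∧ MistakeTree G d {v ∈ A | ¬ G.Adj x v}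

/-- The Littlestone dimension of (the family of the neighbourhoods of the vertices of) `G` is at most
`d`: there is no mistake tree of depth `d + 1`. -/
def LittlestoneLe {V : Type} (G : SimpleGraph V) (d : ℕ) : Prop :=
  ¬ MistakeTree G (d + 1) Set.univ

/-- The colouring of the edges of `K_n` with colour classes `G` and `Gᶜ` has no one-coloured
`K_k`. -/
def NoMono {n : ℕ} (G : SimpleGraph (Fin n)) (k : ℕ) : Prop :=
  G.CliqueFree k ∧ Gᶜ.CliqueFree k

/-- The least `n` such that every colouring of the edges of `K_n` of Littlestone dimension at most
`d` contains a one-coloured `K_k`. -/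
noncomputable def RamseyLittlestone (d k : ℕ) : ℕ :=
  sInf {n : ℕ | ∀ G : SimpleGraph (Fin n), LittlestoneLe G d → ¬ NoMono G k}

end Pool.Agent.H89.Lit
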