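import Pool.Agent.H89.Lit.Lower

set_option autoImplicit false

/-!
# Littlestone dimension: Ramsey numbers
-/

namespace Pool.Agent.H89.Lit

open Finset Filter Topology

/-- some colouring of `K_n` has Littlestone dimension at most `d` and no one-coloured `K_k` -/
def Good (d k n : ℕ) : Prop :=
  ∃ G : SimpleGraph (Fin n), LittlestoneLe G d ∧ NoMono G k

theorem tree_comap {V W : Type} (G : SimpleGraph W) (e : V → W) (d : ℕ) : ∀ A : Set V,
    MistakeTree (G.comap e) d A → MistakeTree G d (e '' A) := by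
  induction d with
  | zero => exact fun A hA => hA.image e
  | succ d ih =>
    rintro A ⟨x, h1, h2⟩
    refine ⟨e x, (ih _ h1).mono ?_, (ih _ h2).mono ?_⟩
    · rintro _ ⟨v, ⟨hv, hadj⟩, rfl⟩
      exact ⟨⟨v, hv, rfl⟩, hadj⟩
    · rintro _ ⟨v, ⟨hv, hadj⟩, rfl⟩
      exact ⟨⟨v, hv, rfl⟩, hadj⟩

theorem good_mono {d k n m : ℕ} (h : n ≤ m) (hg : Good d k m) : Good d k n := by
  obtain ⟨G, h1, h2, h3⟩ := hg
  let e : Fin n ↪ Fin m := Fin.castLEEmb h
  refine ⟨G.comap e, ?_, ?_, ?_⟩
  · intro hT
    exact h1 ((tree_comap G e (d + 1) _ hT).mono (Set.subset_univ _))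
  · intro s hs
    refine h2 (s.map e) ?_
    rw [SimpleGraph.isNClique_iff] at hs ⊢
    refine ⟨?_, by rw [card_map]; exact hs.2⟩
    intro x hx y hy hxy
    rw [mem_coe, Finset.mem_map] at hx hy
    obtain ⟨x, hx, rfl⟩ := hx
    obtain ⟨y, hy, rfl⟩ := hy
    exact hs.1 hx hy (fun h => hxy (by rw [h]))
  · intro s hs
    refine h3 (s.map e) ?_
    rw [SimpleGraph.isNClique_iff] at hs ⊢
    refine ⟨?_, by rw [card_map]; exact hs.2⟩
    intro x hx y hy hxy
    rw [mem_coe, Finset.mem_map] at hx hy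
    obtain ⟨x, hx, rfl⟩ := hx
    obtain ⟨y, hy, rfl⟩ := hy
    have h4 := hs.1 hx hy (fun h => hxy (by rw [h]))
    rw [SimpleGraph.compl_adj] at h4 ⊢
    exact ⟨hxy, h4.2⟩

theorem good_le {d k n : ℕ} (hk : 1 ≤ k) (h : Good d k n) : n ≤ S (2 * (k - 1)) (d + 1) := by
  obtain ⟨G, h1, h2, h3⟩ := h
  exact card_le_of_noMono G hk h1 h2 h3

theorem not_good (d k : ℕ) : ¬ Good d k (S (2 * (k - 1)) (d + 1) + 1) := by
  intro h
  rcases Nat.eq_zero_or_pos k with rfl | hk
  · obtain ⟨G, -, h2, -⟩ := h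
    exact h2 ∅ (by simp [SimpleGraph.isNClique_iff])
  · have := good_le hk h
    omega

theorem ramsey_eq (d k : ℕ) : RamseyLittlestone d k = sInf {n : ℕ | ¬ Good d k n} := by
  unfold RamseyLittlestone Good
  congr 1
  ext n
  simp only [Set.mem_setOf_eq, not_exists, not_and]

theorem ramsey_le (d k : ℕ) : RamseyLittlestone d k ≤ S (2 * (k - 1)) (d + 1) + 1 := by
  rw [ramsey_eq]
  exact Nat.sInf_le (not_good d k)

theorem not_good_ramsey (d k : ℕ) : ¬ Good d k (RamseyLittlestone d k) := by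
  rw [ramsey_eq]
  exact Nat.sInf_mem (s := {n : ℕ | ¬ Good d k n}) ⟨_, not_good d k⟩

theorem good_of_lt {d k n : ℕ} (h : n < RamseyLittlestone d k) : Good d k n := by
  by_contra hc
  rw [ramsey_eq] at h
  exact absurd (Nat.sInf_le (s := {n : ℕ | ¬ Good d k n}) hc) (not_le.2 h)

theorem lt_of_good {d k n : ℕ} (h : Good d k n) : n < RamseyLittlestone d k := by
  by_contra hc
  push Not at hc
  exact not_good_ramsey d k (good_mono hc h)

theorem log_le_of_good {d k n : ℕ} (h : Good d k n) :
    Real.log n ≤ Real.log (RamseyLittlestone d k) := by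
  have h1 := lt_of_good h
  rcases Nat.eq_zero_or_pos n with h0 | h0
  · subst h0
    simp only [Nat.cast_zero, Real.log_zero]
    exact Real.log_natCast_nonneg _
  · exact Real.log_le_log (by exact_mod_cast h0) (by exact_mod_cast h1.le)

/-- `log S h D ≤ D (1 + log (h / D))` -/
theorem log_S_le (h D : ℕ) (hD : 1 ≤ D) (hDh : D ≤ h) :
    Real.log (S h D) ≤ D * (1 + Real.log (h / D)) := by
  have hD0 : (0 : ℝ) < D := by exact_mod_cast hD
  have hh0 : (0 : ℝ) < h := by exact_mod_cast (by omega : 0 < h)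
  have hDh' : (D : ℝ) ≤ h := by exact_mod_cast hDh
  set t : ℝ := D / h with ht
  have ht0 : 0 < t := by positivity
  have ht1 : t ≤ 1 := by rw [ht, div_le_one hh0]; exact hDh'
  have h1 := S_le_gen h D t ht0 ht1
  have h2 : (1 + t) ^ h / t ^ D ≤ Real.exp D / t ^ D := by
    apply div_le_div_of_nonneg_right _ (by positivity)
    calc (1 + t) ^ h ≤ (Real.exp t) ^ h := by
          apply pow_le_pow_left₀ (by positivity)
          have := Real.add_one_le_exp t
          linarith
      _ = Real.exp D := by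
          rw [← Real.exp_nat_mul]
          congr 1
          rw [ht]; field_simp
  have h3 : Real.log (Real.exp D / t ^ D) = D * (1 + Real.log (h / D)) := by
    rw [Real.log_div (by positivity) (by positivity), Real.log_exp, Real.log_pow]
    have : Real.log (h / D) = - Real.log t := by
      rw [ht, ← Real.log_inv, inv_div]
    rw [this]
    ring
  rcases Nat.eq_zero_or_pos (S h D) with h0 | h0
  · rw [h0]
    simp only [Nat.cast_zero, Real.log_zero]
    have : 0 ≤ Real.log ((h : ℝ) / D) := Real.log_nonneg (by rw [le_div_iff₀ hD0]; linarith)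
    positivity
  · rw [← h3]
    exact Real.log_le_log (by exact_mod_cast h0) (h1.trans h2)

/-- `log S h D ≤ h H(D / h)` with the entropy function `H`, for `2 D ≤ h` -/
theorem log_S_le_entropy (h D : ℕ) (hD : 1 ≤ D) (hDh : 2 * D ≤ h) :
    Real.log (S h D) ≤ h * Real.binEntropy (D / h) := by
  have hD0 : (0 : ℝ) < D := by exact_mod_cast hD
  have hh0 : (0 : ℝ) < h := by exact_mod_cast (by omega : 0 < h)
  have hDh' : 2 * (D : ℝ) ≤ h := by exact_mod_cast hDh
  obtain ⟨x, hx⟩ : ∃ x : ℝ, x = D / h := ⟨_, rfl⟩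
  have hx0 : 0 < x := by rw [hx]; positivity
  have hx1 : x ≤ 1 / 2 := by rw [hx, div_le_div_iff₀ hh0 (by norm_num)]; linarith
  have hx2 : 0 < 1 - x := by linarith
  have hDx : (D : ℝ) = h * x := by rw [hx]; field_simp
  have ht0 : 0 < x / (1 - x) := by positivity
  have ht1 : x / (1 - x) ≤ 1 := by rw [div_le_one hx2]; linarith
  have h1 := S_le_gen h D _ ht0 ht1
  have h3 : Real.log ((1 + x / (1 - x)) ^ h / (x / (1 - x)) ^ D) = h * Real.binEntropy x := by
    have e1 : 1 + x / (1 - x) = (1 - x)⁻¹ := by field_simp; ring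
    rw [e1, Real.log_div (by positivity) (by positivity), Real.log_pow, Real.log_pow,
      Real.log_div hx0.ne' hx2.ne', Real.binEntropy, Real.log_inv, Real.log_inv, hDx]
    ring
  rw [← hx]
  rcases Nat.eq_zero_or_pos (S h D) with h0 | h0
  · rw [h0]
    simp only [Nat.cast_zero, Real.log_zero]
    have := Real.binEntropy_nonneg hx0.le (by linarith)
    positivity
  · rw [← h3]
    exact Real.log_le_log (by exact_mod_cast h0) h1

theorem log_add_one_le {n : ℕ} : Real.log ((n + 1 : ℕ) : ℝ) ≤ Real.log n + Real.log 2 := by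
  rcases Nat.eq_zero_or_pos n with h0 | h0
  · subst h0
    simp only [zero_add, Nat.cast_one, Real.log_one, Nat.cast_zero, Real.log_zero]
    exact Real.log_nonneg (by norm_num)
  · have h0' : (0 : ℝ) < n := by exact_mod_cast h0
    rw [← Real.log_mul h0'.ne' (by norm_num)]
    apply Real.log_le_log (by positivity)
    have : (1 : ℝ) ≤ n := by exact_mod_cast h0
    push_cast
    linarith

theorem log_ramsey_le (d k : ℕ) : Real.log (RamseyLittlestone d k) ≤
    Real.log (S (2 * (k - 1)) (d + 1)) + Real.log 2 := by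
  refine le_trans ?_ log_add_one_le
  rcases Nat.eq_zero_or_pos (RamseyLittlestone d k) with h0 | h0
  · rw [h0]
    simp only [Nat.cast_zero, Real.log_zero]
    exact Real.log_natCast_nonneg _
  · exact Real.log_le_log (by exact_mod_cast h0) (by exact_mod_cast ramsey_le d k)

end Pool.Agent.H89.Lit
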