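import Pool.Agent.H89.Lit.Asy

set_option autoImplicit false

/-!
# Littlestone dimension: fixed dimension, and large colourings
-/

namespace Pool.Agent.H89.Lit

open Finset Filter Topology

theorem good_of_params (d q k : ℕ) (hq : 4 ≤ q) (hd : 2 * Nat.log 2 d + 3 ≤ d)
    (hk : 2 * (q : ℝ) * (d * Real.log q + 1) + 1 ≤ k) :
    Good d k (q ^ (d - 2 * Nat.log 2 d - 2)) := by
  obtain ⟨m, hm⟩ : ∃ m, m = Nat.log 2 d := ⟨_, rfl⟩
  have hm3 : d < 2 ^ (m + 1) := by rw [hm]; exact Nat.lt_pow_succ_log_self (by norm_num) d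
  rw [← hm] at hd ⊢
  have hq1 : (1 : ℝ) ≤ q := by exact_mod_cast (by omega : 1 ≤ q)
  have hlogq : 0 ≤ Real.log q := Real.log_nonneg hq1
  obtain ⟨G, g1, g2, g3⟩ := lit_lower (d - 2 * m) (2 * m + 1) q k hq (by omega) (by
    have e1 : d - 2 * m - 1 ≤ 2 ^ (m + 1) := by omega
    calc (d - 2 * m - 1) ^ 2 ≤ (2 ^ (m + 1)) ^ 2 := Nat.pow_le_pow_left e1 2
      _ = 2 * 2 ^ (2 * m + 1) := by rw [← pow_mul]; ring) (by
    refine le_trans ?_ hk
    have e1 : ((d - 2 * m : ℕ) : ℝ) ≤ d := by exact_mod_cast Nat.sub_le _ _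
    have e2 := mul_le_mul_of_nonneg_right e1 hlogq
    have e3 : 2 * (q : ℝ) * (((d - 2 * m : ℕ) : ℝ) * Real.log q + 1) ≤
        2 * (q : ℝ) * (d * Real.log q + 1) := by
      apply mul_le_mul_of_nonneg_left _ (by positivity)
      linarith
    linarith)
  refine ⟨G, ?_, g1, g2⟩
  rwa [show d - 2 * m + (2 * m + 1) = d + 1 by omega] at g3

/-- **Fixed Littlestone dimension.** -/
theorem lit_fixed_lower (d : ℕ) (η : ℝ) (hη : 0 < η) : ∀ᶠ k : ℕ in atTop,
    ((d : ℝ) - 2 * Nat.log 2 d - 2 - η) * Real.log k ≤ Real.log (RamseyLittlestone d k) := by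
  rcases Nat.lt_or_ge d (2 * Nat.log 2 d + 3) with hd | hd
  · filter_upwards [eventually_ge_atTop 1] with k hk
    have h1 : ((d : ℝ) - 2 * Nat.log 2 d - 2 - η) ≤ 0 := by
      have : (d : ℝ) ≤ 2 * Nat.log 2 d + 2 := by exact_mod_cast (by omega : d ≤ 2 * Nat.log 2 d + 2)
      linarith
    have h2 : 0 ≤ Real.log k := Real.log_natCast_nonneg k
    have h3 : 0 ≤ Real.log (RamseyLittlestone d k) := Real.log_natCast_nonneg _
    nlinarith
  obtain ⟨s, hs⟩ : ∃ s : ℝ, s = min (η / (2 * d)) (1 / 2) := ⟨_, rfl⟩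
  have hd0 : (0 : ℝ) < d := by exact_mod_cast (by omega : 0 < d)
  have hs0 : 0 < s := by rw [hs]; positivity
  have hs2 : s ≤ 1 / 2 := by rw [hs]; exact min_le_right _ _
  have hsη : s * d ≤ η / 2 := by
    have : s ≤ η / (2 * d) := by rw [hs]; exact min_le_left _ _
    calc s * d ≤ η / (2 * d) * d := mul_le_mul_of_nonneg_right this hd0.le
      _ = η / 2 := by field_simp
  have hA : ∀ᶠ x : ℝ in atTop, Real.log x ≤ 1 / (8 * d) * x ^ s := by
    have h1 := (isLittleO_log_rpow_atTop hs0).bound (show (0 : ℝ) < 1 / (8 * d) by positivity)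
    filter_upwards [h1, eventually_ge_atTop 1] with x hx hx1
    rw [Real.norm_of_nonneg (Real.log_nonneg hx1), Real.norm_of_nonneg (by positivity)] at hx
    exact hx
  have hB : ∀ᶠ x : ℝ in atTop, 16 ≤ x ^ s := (tendsto_rpow_atTop hs0).eventually_ge_atTop _
  have hB2 : ∀ᶠ x : ℝ in atTop, 8 ≤ x ^ (1 - s) :=
    (tendsto_rpow_atTop (by linarith : 0 < 1 - s)).eventually_ge_atTop _
  have hC : ∀ᶠ x : ℝ in atTop, 2 * d / η ≤ Real.log x :=
    Real.tendsto_log_atTop.eventually_ge_atTop _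
  have hall := (tendsto_natCast_atTop_atTop (R := ℝ)).eventually
    ((hA.and hB).and ((hB2.and hC).and (eventually_ge_atTop 4)))
  filter_upwards [hall] with k hk
  obtain ⟨⟨h1, h2⟩, ⟨h3, h4⟩, h5⟩ := hk
  have hk0 : (0 : ℝ) < k := by linarith
  obtain ⟨z, hz⟩ : ∃ z : ℝ, z = (k : ℝ) ^ (1 - s) := ⟨_, rfl⟩
  rw [← hz] at h3
  have hz0 : 0 < z := by linarith
  have hzk : z * (k : ℝ) ^ s = k := by
    rw [hz, ← Real.rpow_add hk0]
    norm_num
  obtain ⟨q, hq⟩ : ∃ q : ℕ, q = ⌊z⌋₊ := ⟨_, rfl⟩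
  have hqz : (q : ℝ) ≤ z := by rw [hq]; exact Nat.floor_le hz0.le
  have hqz2 : z ≤ 2 * q := by
    have := Nat.lt_floor_add_one z
    rw [← hq] at this
    linarith
  have hq4 : 4 ≤ q := by
    have : (4 : ℝ) ≤ q := by linarith
    exact_mod_cast this
  have hq0 : (0 : ℝ) < q := by linarith
  have hzlek : z ≤ k := by
    have e1 : 1 ≤ (k : ℝ) ^ s := by linarith
    nlinarith
  have hlogz : Real.log z = (1 - s) * Real.log k := by rw [hz, Real.log_rpow hk0]
  have hl2 : Real.log 2 ≤ 1 := by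
    have := Real.log_two_lt_d9
    linarith
  have hlogk : 0 ≤ Real.log (k : ℝ) := Real.log_natCast_nonneg k
  have hlogq : (1 - s) * Real.log k - 1 ≤ Real.log q := by
    have e1 : Real.log z ≤ Real.log 2 + Real.log q := by
      rw [← Real.log_mul (by norm_num) hq0.ne']
      exact Real.log_le_log hz0 hqz2
    rw [hlogz] at e1
    linarith
  have hlogq0 : 0 ≤ Real.log (q : ℝ) := Real.log_natCast_nonneg q
  have hlogqk : Real.log q ≤ Real.log k := Real.log_le_log hq0 (hqz.trans hzlek)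
  have hgood := good_of_params d q k hq4 hd (by
    have e1 : (d : ℝ) * Real.log q + 1 ≤ (k : ℝ) ^ s / 4 := by
      have e2 : (d : ℝ) * Real.log q ≤ d * (1 / (8 * d) * (k : ℝ) ^ s) :=
        mul_le_mul_of_nonneg_left (hlogqk.trans h1) hd0.le
      have e3 : (d : ℝ) * (1 / (8 * d) * (k : ℝ) ^ s) = (k : ℝ) ^ s / 8 := by field_simp
      linarith
    have e4 : 2 * (q : ℝ) * (d * Real.log q + 1) ≤ 2 * z * ((k : ℝ) ^ s / 4) := by
      apply mul_le_mul (by linarith) e1 (by positivity) (by positivity)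
    have e5 : 2 * z * ((k : ℝ) ^ s / 4) = k / 2 := by
      calc 2 * z * ((k : ℝ) ^ s / 4) = (z * (k : ℝ) ^ s) / 2 := by ring
        _ = k / 2 := by rw [hzk]
    linarith)
  have h6 := log_le_of_good hgood
  rw [Nat.cast_pow, Real.log_pow] at h6
  refine le_trans ?_ h6
  have e6 : ((d - 2 * Nat.log 2 d - 2 : ℕ) : ℝ) = (d : ℝ) - 2 * Nat.log 2 d - 2 := by
    rw [Nat.cast_sub (by omega), Nat.cast_sub (by omega)]
    push_cast
    ring
  rw [e6]
  obtain ⟨e, he⟩ : ∃ e : ℝ, e = (d : ℝ) - 2 * Nat.log 2 d - 2 := ⟨_, rfl⟩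
  rw [← he]
  have he1 : 0 ≤ e := by
    rw [he]
    have : ((2 * Nat.log 2 d + 3 : ℕ) : ℝ) ≤ d := by exact_mod_cast hd
    push_cast at this
    linarith
  have he2 : e ≤ d := by
    rw [he]
    have : (0 : ℝ) ≤ Nat.log 2 d := Nat.cast_nonneg _
    linarith
  have e7 : e * ((1 - s) * Real.log k - 1) ≤ e * Real.log q := mul_le_mul_of_nonneg_left hlogq he1
  have e8 : e * s ≤ d * s := mul_le_mul_of_nonneg_right he2 hs0.le
  have e9 : 2 * d ≤ η * Real.log k := by rw [div_le_iff₀ hη] at h4; linarith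
  have e10 : (e * s) * Real.log k ≤ (η / 2) * Real.log k :=
    mul_le_mul_of_nonneg_right (by linarith) hlogk
  linarith

theorem lit_fixed_upper (d : ℕ) (η : ℝ) (hη : 0 < η) : ∀ᶠ k : ℕ in atTop,
    Real.log (RamseyLittlestone d k) ≤ ((d : ℝ) + 1 + η) * Real.log k := by
  have hC : ∀ᶠ k : ℕ in atTop, (2 * ((d : ℝ) + 1) + 1) / η ≤ Real.log (k : ℝ) :=
    (Real.tendsto_log_atTop.comp (tendsto_natCast_atTop_atTop (R := ℝ))).eventually_ge_atTop _
  filter_upwards [hC, eventually_ge_atTop (d + 3)] with k hk1 hk2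
  have h1 := log_ramsey_le d k
  have h2 := log_S_le (2 * (k - 1)) (d + 1) (by omega) (by omega)
  have hk0 : (0 : ℝ) < k := by exact_mod_cast (by omega : 0 < k)
  have hl2 : Real.log 2 ≤ 1 := by
    have := Real.log_two_lt_d9
    linarith
  have h3 : Real.log (((2 * (k - 1) : ℕ) : ℝ) / ((d + 1 : ℕ) : ℝ)) ≤ 1 + Real.log k := by
    have hpos : (0 : ℝ) < ((2 * (k - 1) : ℕ) : ℝ) := by exact_mod_cast (by omega : 0 < 2 * (k - 1))
    calc Real.log (((2 * (k - 1) : ℕ) : ℝ) / ((d + 1 : ℕ) : ℝ)) ≤ Real.log (2 * k) := by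
          apply Real.log_le_log (by positivity)
          have e1 : (((2 * (k - 1) : ℕ) : ℝ)) ≤ 2 * k := by
            have : 2 * (k - 1) ≤ 2 * k := by omega
            exact_mod_cast this
          refine le_trans (div_le_self hpos.le ?_) e1
          push_cast
          linarith [(Nat.cast_nonneg d : (0 : ℝ) ≤ d)]
      _ = Real.log 2 + Real.log k := Real.log_mul (by norm_num) hk0.ne'
      _ ≤ 1 + Real.log k := by linarith
  have h4 : ((d + 1 : ℕ) : ℝ) * (1 + Real.log (((2 * (k - 1) : ℕ) : ℝ) / ((d + 1 : ℕ) : ℝ))) ≤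
      ((d : ℝ) + 1) * (1 + (1 + Real.log k)) := by
    push_cast at h3 ⊢
    apply mul_le_mul_of_nonneg_left _ (by positivity)
    linarith
  rw [div_le_iff₀ hη] at hk1
  linarith

/-- **Large colourings have large Littlestone dimension.** -/
theorem lit_large : ∀ᶠ k : ℕ in atTop, ∀ (n : ℕ) (G : SimpleGraph (Fin n)),
    (2 : ℝ) ^ ((k : ℝ) / 2) ≤ n → NoMono G k → ¬ LittlestoneLe G (k / 13) := by
  filter_upwards [eventually_ge_atTop 300] with k hk n G hn hG hd
  have hk0 : (0 : ℝ) < k := by exact_mod_cast (by omega : 0 < k)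
  have hk300 : (300 : ℝ) ≤ k := by exact_mod_cast hk
  have h1 := card_le_of_noMono G (by omega) hd hG.1 hG.2
  have h2 := log_S_le (2 * (k - 1)) (k / 13 + 1) (by omega) (by omega)
  have hd1 : (k : ℝ) / 13 ≤ ((k / 13 + 1 : ℕ) : ℝ) := by
    rw [div_le_iff₀ (by norm_num)]
    have : k ≤ (k / 13 + 1) * 13 := by omega
    exact_mod_cast this
  have hd2 : ((k / 13 + 1 : ℕ) : ℝ) ≤ (k : ℝ) / 13 + 1 := by
    push_cast
    have := Nat.cast_div_le (α := ℝ) (m := k) (n := 13)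
    push_cast at this
    linarith
  have hl26 : Real.log 26 ≤ 3.293 := by
    have e1 : 4 * Real.log 26 ≤ 19 * Real.log 2 := by
      have : Real.log ((26 : ℝ) ^ 4) ≤ Real.log ((2 : ℝ) ^ 19) :=
        Real.log_le_log (by norm_num) (by norm_num)
      rw [Real.log_pow, Real.log_pow] at this
      exact_mod_cast this
    have := Real.log_two_lt_d9
    linarith
  have hpos : (0 : ℝ) < ((2 * (k - 1) : ℕ) : ℝ) := by exact_mod_cast (by omega : 0 < 2 * (k - 1))
  have h3 : Real.log (((2 * (k - 1) : ℕ) : ℝ) / ((k / 13 + 1 : ℕ) : ℝ)) ≤ 3.293 := by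
    refine le_trans ?_ hl26
    apply Real.log_le_log (by positivity)
    have e1 : (((2 * (k - 1) : ℕ) : ℝ)) ≤ 2 * k := by
      have : 2 * (k - 1) ≤ 2 * k := by omega
      exact_mod_cast this
    rw [div_le_iff₀ (by positivity)]
    linarith
  have h4 : ((k / 13 + 1 : ℕ) : ℝ) *
      (1 + Real.log (((2 * (k - 1) : ℕ) : ℝ) / ((k / 13 + 1 : ℕ) : ℝ))) ≤
      ((k : ℝ) / 13 + 1) * (1 + 3.293) := by
    calc ((k / 13 + 1 : ℕ) : ℝ) *
        (1 + Real.log (((2 * (k - 1) : ℕ) : ℝ) / ((k / 13 + 1 : ℕ) : ℝ)))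
        ≤ ((k / 13 + 1 : ℕ) : ℝ) * (1 + 3.293) := by
          apply mul_le_mul_of_nonneg_left _ (Nat.cast_nonneg _)
          linarith
      _ ≤ _ := mul_le_mul_of_nonneg_right hd2 (by norm_num)
  have h5 : (k : ℝ) / 2 * Real.log 2 ≤ Real.log n := by
    rw [← Real.log_rpow (by norm_num)]
    exact Real.log_le_log (by positivity) hn
  have hn0 : (0 : ℝ) < n := lt_of_lt_of_le (by positivity) hn
  have h6 : Real.log n ≤ Real.log (S (2 * (k - 1)) (k / 13 + 1)) :=
    Real.log_le_log hn0 (by exact_mod_cast h1)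
  have := Real.log_two_gt_d9
  nlinarith

end Pool.Agent.H89.Lit
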