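import Pool.Agent.H89.Lit.Upper
import Pool.Graph.R_pool_sql_team_seeded_1acbe0a2.Y422.RC.VCLow

set_option autoImplicit false

/-!
# Littlestone dimension: the lower bound
-/

namespace Pool.Agent.H89.Lit

open Finset

open scoped Classical in
/-- a mistake tree of depth `c` has `2 ^ c` different leaves -/
theorem card_of_tree {V : Type} (G : SimpleGraph V) (c : ℕ) : ∀ A : Set V, MistakeTree G c A →
    ∃ B : Finset V, (B : Set V) ⊆ A ∧ B.card = 2 ^ c := by
  induction c with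
  | zero =>
    rintro A ⟨x, hx⟩
    exact ⟨{x}, by simpa using hx, by simp⟩
  | succ c ih =>
    rintro A ⟨x, h1, h2⟩
    obtain ⟨B1, b1, c1⟩ := ih _ h1
    obtain ⟨B2, b2, c2⟩ := ih _ h2
    refine ⟨B1 ∪ B2, ?_, ?_⟩
    · rw [coe_union]
      rintro v (hv | hv)
      · exact (b1 hv).1
      · exact (b2 hv).1
    · rw [card_union_of_disjoint, c1, c2]
      · ring
      · rw [disjoint_left]
        intro v hv hv'
        exact (b2 hv').2 (b1 hv).2

theorem MistakeTree.nonempty {V : Type} {G : SimpleGraph V} {d : ℕ} {A : Set V}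
    (hA : MistakeTree G d A) : A.Nonempty := hA.le (Nat.zero_le d)

open scoped Classical in
/-- the branch that always turns to the neighbours gives a complete bipartite subgraph -/
theorem bip_of_tree {V : Type} (G : SimpleGraph V) (c a : ℕ) : ∀ (A : Set V) (X : Finset V),
    (∀ x ∈ X, ∀ v ∈ A, G.Adj x v) → MistakeTree G (a + c) A →
    ∃ Y B : Finset V, Y.card = X.card + a ∧ B.card = 2 ^ c ∧ ∀ x ∈ Y, ∀ v ∈ B, G.Adj x v := by
  induction a with
  | zero =>
    intro A X hX hA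
    rw [Nat.zero_add] at hA
    obtain ⟨B, hB, hBc⟩ := card_of_tree G c A hA
    exact ⟨X, B, rfl, hBc, fun x hx v hv => hX x hx v (hB hv)⟩
  | succ a ih =>
    intro A X hX hA
    rw [show a + 1 + c = (a + c) + 1 by ring] at hA
    obtain ⟨x, h1, h2⟩ := hA
    have hxX : x ∉ X := by
      intro hx
      obtain ⟨v, hv⟩ := h2.nonempty
      exact hv.2 (hX x hx v hv.1)
    obtain ⟨Y, B, hY, hB, h⟩ := ih {v ∈ A | G.Adj x v} (insert x X) (by
      intro y hy v hv
      rcases mem_insert.1 hy with rfl | hy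
      · exact hv.2
      · exact hX y hy v hv.1) h1
    refine ⟨Y, B, ?_, hB, h⟩
    rw [hY, card_insert_of_notMem hxX]
    ring

theorem tree_of_noBip {V : Type} (G : SimpleGraph V) (a c : ℕ)
    (hfree : ∀ A B : Finset V, A.card = a → B.card = 2 ^ c → ¬ ∀ x ∈ A, ∀ y ∈ B, G.Adj x y) :
    ¬ MistakeTree G (a + c) Set.univ := by
  intro h
  obtain ⟨Y, B, hY, hB, hadj⟩ := bip_of_tree G c a Set.univ ∅ (by simp) h
  exact hfree Y B (by simpa using hY) hB hadj

open Pool.Agent.Y422.RC in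
/-- **The finite lower bound.** -/
theorem lit_lower (a c q k : ℕ) (hq : 4 ≤ q) (ha : 3 ≤ a) (hac : (a - 1) ^ 2 ≤ 2 * 2 ^ c)
    (hk : 2 * (q : ℝ) * (a * Real.log q + 1) + 1 ≤ k) :
    ∃ G : SimpleGraph (Fin (q ^ (a - 2))), G.CliqueFree k ∧ Gᶜ.CliqueFree k ∧
      ¬ MistakeTree G (a + c) Set.univ := by
  have hq0 : (0 : ℝ) < q := by
    have : 0 < q := by omega
    exact_mod_cast this
  have hq4 : (4 : ℝ) ≤ q := by exact_mod_cast hq
  have hlogq : 0 ≤ Real.log q := Real.log_nonneg (by linarith)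
  have hk2 : (2 : ℝ) ≤ k := by
    have : 0 ≤ (a : ℝ) * Real.log q := by positivity
    nlinarith
  have hinv : 1 / (q : ℝ) ≤ 1 / 4 := one_div_le_one_div_of_le (by norm_num) hq4
  have hinv0 : 0 < 1 / (q : ℝ) := by positivity
  obtain ⟨G, h1, h2, h3⟩ := exists_graph2 (q ^ (a - 2)) k q a (2 ^ c) (by omega) (by
    have hmain : ((q ^ (a - 2) : ℕ).choose k : ℝ) * (1 - 1 / (q : ℝ)) ^ (k.choose 2) ≤
        Real.exp (-2) := by
      have e1 : ((q ^ (a - 2) : ℕ).choose k : ℝ) ≤ ((q ^ (a - 2) : ℕ) : ℝ) ^ k := by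
        exact_mod_cast Nat.choose_le_pow _ _
      have e2 : (1 - 1 / (q : ℝ)) ^ (k.choose 2) ≤ Real.exp (-(1 / q)) ^ (k.choose 2) := by
        apply pow_le_pow_left₀ (by linarith)
        have := Real.add_one_le_exp (-(1 / (q : ℝ)))
        linarith
      have e3 : ((q ^ (a - 2) : ℕ) : ℝ) ^ k = Real.exp (k * (((a - 2 : ℕ) : ℝ) * Real.log q)) := by
        push_cast
        rw [← pow_mul, mul_comm, pow_mul, ← Real.rpow_natCast ((q : ℝ) ^ k), ← Real.rpow_natCast (q : ℝ),
          ← Real.rpow_mul hq0.le, Real.rpow_def_of_pos hq0]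
        congr 1
        ring
      have e4 : Real.exp (-(1 / (q : ℝ))) ^ (k.choose 2) =
          Real.exp (-(k * (k - 1) / (2 * q))) := by
        rw [← Real.exp_nat_mul, Nat.cast_choose_two]
        congr 1
        field_simp
      calc ((q ^ (a - 2) : ℕ).choose k : ℝ) * (1 - 1 / (q : ℝ)) ^ (k.choose 2)
          ≤ Real.exp (k * (((a - 2 : ℕ) : ℝ) * Real.log q)) * Real.exp (-(k * (k - 1) / (2 * q))) := by
            rw [← e3, ← e4]
            apply mul_le_mul e1 e2
            · exact pow_nonneg (by linarith) _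
            · positivity
        _ ≤ Real.exp (-2) := by
            rw [← Real.exp_add, Real.exp_le_exp]
            have ha2 : (((a - 2 : ℕ) : ℝ)) ≤ a := by exact_mod_cast Nat.sub_le _ _
            have hle : ((a - 2 : ℕ) : ℝ) * Real.log q + 1 ≤ (k - 1) / (2 * q) := by
              rw [le_div_iff₀ (by positivity)]
              have := mul_le_mul_of_nonneg_right ha2 hlogq
              nlinarith
            have e5 : (k : ℝ) * (((a - 2 : ℕ) : ℝ) * Real.log q) + -(k * (k - 1) / (2 * q)) =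
                k * ((((a - 2 : ℕ) : ℝ) * Real.log q + 1) - (k - 1) / (2 * q)) - k := by ring
            rw [e5]
            nlinarith
    have hexp : Real.exp (-2) ≤ 1 / 4 := by
      rw [Real.exp_neg, inv_eq_one_div]
      apply one_div_le_one_div_of_le (by norm_num)
      have h1 := Real.add_one_le_exp (1 : ℝ)
      have h2 : Real.exp 2 = Real.exp 1 * Real.exp 1 := by rw [← Real.exp_add]; norm_num
      nlinarith [Real.exp_pos 1]
    have hfirst : ((q ^ (a - 2) : ℕ).choose k : ℝ) * (1 / (q : ℝ)) ^ (k.choose 2) ≤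
        ((q ^ (a - 2) : ℕ).choose k : ℝ) * (1 - 1 / (q : ℝ)) ^ (k.choose 2) := by
      apply mul_le_mul_of_nonneg_left _ (by positivity)
      exact pow_le_pow_left₀ hinv0.le (by linarith) _
    have hthird : ((q ^ (a - 2) : ℕ).choose a : ℝ) * ((q ^ (a - 2) : ℕ).choose (2 ^ c) : ℝ) *
        (1 / (q : ℝ)) ^ (a * 2 ^ c) ≤ 1 / 4 := by
      have e1 : ((q ^ (a - 2) : ℕ).choose a : ℝ) ≤ ((q ^ (a - 2) : ℕ) : ℝ) ^ a := by
        exact_mod_cast Nat.choose_le_pow _ _
      have e2 : ((q ^ (a - 2) : ℕ).choose (2 ^ c) : ℝ) ≤ ((q ^ (a - 2) : ℕ) : ℝ) ^ (2 ^ c) := by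
        exact_mod_cast Nat.choose_le_pow _ _
      have e3 : (a - 2) * (a + 2 ^ c) + 1 ≤ a * 2 ^ c := by
        obtain ⟨s, rfl⟩ : ∃ s, a = s + 2 := ⟨a - 2, by omega⟩
        have e4 : s + 2 - 1 = s + 1 := by omega
        have e5 : s + 2 - 2 = s := by omega
        rw [e4] at hac
        rw [e5]
        nlinarith
      calc ((q ^ (a - 2) : ℕ).choose a : ℝ) * ((q ^ (a - 2) : ℕ).choose (2 ^ c) : ℝ) *
          (1 / (q : ℝ)) ^ (a * 2 ^ c)
          ≤ (((q ^ (a - 2) : ℕ) : ℝ) ^ a * ((q ^ (a - 2) : ℕ) : ℝ) ^ (2 ^ c)) *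
            (1 / (q : ℝ)) ^ (a * 2 ^ c) := by
            apply mul_le_mul_of_nonneg_right _ (by positivity)
            exact mul_le_mul e1 e2 (by positivity) (by positivity)
        _ = (q : ℝ) ^ ((a - 2) * (a + 2 ^ c)) * (1 / (q : ℝ)) ^ (a * 2 ^ c) := by
            push_cast
            rw [← pow_add, ← pow_mul]
        _ ≤ (q : ℝ) ^ ((a - 2) * (a + 2 ^ c)) * (1 / (q : ℝ)) ^ ((a - 2) * (a + 2 ^ c) + 1) := by
            apply mul_le_mul_of_nonneg_left _ (by positivity)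
            exact pow_le_pow_of_le_one hinv0.le (by linarith) e3
        _ = 1 / q := by
            rw [pow_succ, ← mul_assoc, ← mul_pow, mul_one_div_cancel hq0.ne', one_pow, one_mul]
        _ ≤ 1 / 4 := hinv
    linarith)
  exact ⟨G, h1, h2, tree_of_noBip G a c h3⟩

/-- the lower bound, asymptotic form -/
theorem lit_lower_asy (ε : ℝ) (hε : 0 < ε) (hε1 : ε ≤ 1) : ∃ C : ℝ, 1 ≤ C ∧ ∀ d k : ℕ,
    C ≤ d → C * d ≤ k →
    ∃ (n : ℕ) (G : SimpleGraph (Fin n)), LittlestoneLe G d ∧ G.CliqueFree k ∧ Gᶜ.CliqueFree k ∧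
      (1 - ε) * (d * Real.log (k / d)) ≤ Real.log n := by
  have hA : ∀ᶠ x : ℝ in Filter.atTop, 5 * Real.log x ≤ x ^ (ε / 4) := by
    have h1 := (isLittleO_log_rpow_atTop (show 0 < ε / 4 by positivity)).bound
      (show (0 : ℝ) < 1 / 5 by norm_num)
    filter_upwards [h1, Filter.eventually_ge_atTop 1] with x hx hx1
    rw [Real.norm_of_nonneg (Real.log_nonneg hx1), Real.norm_of_nonneg (by positivity)] at hx
    linarith
  have hB : ∀ᶠ x : ℝ in Filter.atTop, 4 / ε ≤ Real.log x :=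
    Real.tendsto_log_atTop.eventually_ge_atTop _
  obtain ⟨X, hX⟩ := Filter.eventually_atTop.1 (hA.and hB)
  refine ⟨max X (max (144 / ε ^ 2) 16), le_trans (by norm_num)
    ((le_max_right _ _).trans (le_max_right _ _)), ?_⟩
  intro d k h1 h2
  have hd144 : 144 / ε ^ 2 ≤ d := ((le_max_left _ _).trans (le_max_right _ _)).trans h1
  have hd16 : (16 : ℝ) ≤ d := ((le_max_right _ _).trans (le_max_right _ _)).trans h1
  have hd0 : (0 : ℝ) < d := by linarith
  obtain ⟨x, hx⟩ : ∃ x : ℝ, x = k / d := ⟨_, rfl⟩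
  have hxC : max X (max (144 / ε ^ 2) 16) ≤ x := by rw [hx, le_div_iff₀ hd0]; exact h2
  have hxX : X ≤ x := (le_max_left _ _).trans hxC
  have hx16 : 16 ≤ x := ((le_max_right _ _).trans (le_max_right _ _)).trans hxC
  have hx144 : 144 / ε ^ 2 ≤ x := ((le_max_left _ _).trans (le_max_right _ _)).trans hxC
  have hx0 : 0 < x := by linarith
  obtain ⟨hx5, hx4⟩ := hX x hxX
  have hkx : (k : ℝ) = d * x := by rw [hx]; field_simp
  have hlogx1 : 1 ≤ Real.log x := by
    have h3 : Real.exp 1 ≤ x := by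
      have := Real.exp_one_lt_d9
      linarith
    rwa [Real.le_log_iff_exp_le hx0]
  have hl2 : Real.log 2 ≤ 0.7 := by
    have := Real.log_two_lt_d9
    linarith
  -- the parameters
  obtain ⟨z, hz⟩ : ∃ z : ℝ, z = x ^ (1 - ε / 4) := ⟨_, rfl⟩
  have hz0 : 0 < z := by rw [hz]; positivity
  have hzx : z * x ^ (ε / 4) = x := by
    rw [hz, ← Real.rpow_add hx0]
    norm_num
  have hz8 : 8 ≤ z := by
    have e1 : (16 : ℝ) ^ (1 - ε / 4) ≤ z := by
      rw [hz]; exact Real.rpow_le_rpow (by norm_num) hx16 (by linarith)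
    have e2 : (16 : ℝ) ^ ((3 : ℝ) / 4) ≤ 16 ^ (1 - ε / 4) :=
      Real.rpow_le_rpow_of_exponent_le (by norm_num) (by linarith)
    have e3 : (16 : ℝ) ^ ((3 : ℝ) / 4) = 8 := by
      rw [show (16 : ℝ) = 2 ^ (4 : ℝ) by norm_num, ← Real.rpow_mul (by norm_num)]
      norm_num
    linarith
  set q : ℕ := ⌊z⌋₊ with hq
  have hqz : (q : ℝ) ≤ z := Nat.floor_le hz0.le
  have hqz2 : z ≤ 2 * q := by
    have := Nat.lt_floor_add_one z
    rw [← hq] at this
    have : (7 : ℝ) ≤ q := by linarith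
    linarith
  have hq4 : 4 ≤ q := by
    have : (4 : ℝ) ≤ q := by linarith
    exact_mod_cast this
  have hq0 : (0 : ℝ) < q := by linarith
  have hzlex : z ≤ x := by
    rw [hz]
    calc x ^ (1 - ε / 4) ≤ x ^ (1 : ℝ) :=
          Real.rpow_le_rpow_of_exponent_le (by linarith) (by linarith)
      _ = x := Real.rpow_one x
  have hlogz : Real.log z = (1 - ε / 4) * Real.log x := by
    rw [hz, Real.log_rpow hx0]
  have hlogq : (1 - ε / 2) * Real.log x ≤ Real.log q := by
    have e1 : Real.log z ≤ Real.log 2 + Real.log q := by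
      rw [← Real.log_mul (by norm_num) hq0.ne']
      exact Real.log_le_log hz0 hqz2
    rw [hlogz] at e1
    have e2 : 4 ≤ ε * Real.log x := by
      rw [div_le_iff₀ hε] at hx4
      linarith
    nlinarith
  have hlogq0 : 0 ≤ Real.log q := Real.log_nonneg (by linarith)
  have hlogqx : Real.log q ≤ Real.log x := Real.log_le_log hq0 (hqz.trans hzlex)
  -- the exponent
  set m : ℕ := Nat.log 2 d with hm
  have hd0' : d ≠ 0 := by
    intro h
    rw [h] at hd0
    simp at hd0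
  have hm2 : 2 ^ m ≤ d := Nat.pow_log_le_self 2 hd0'
  have hm3 : d < 2 ^ (m + 1) := Nat.lt_pow_succ_log_self (by norm_num) d
  have hmsq : ∀ m : ℕ, (m + 1) ^ 2 ≤ 4 * 2 ^ m := by
    intro m
    induction m with
    | zero => norm_num
    | succ m ih =>
      rcases Nat.lt_or_ge m 2 with h | h
      · interval_cases m <;> norm_num
      · have : (m + 1 + 1) ^ 2 ≤ 2 * (m + 1) ^ 2 := by nlinarith
        calc (m + 1 + 1) ^ 2 ≤ 2 * (m + 1) ^ 2 := this
          _ ≤ 2 * (4 * 2 ^ m) := Nat.mul_le_mul_left _ ih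
          _ = 4 * 2 ^ (m + 1) := by ring
  have hmd : ((m : ℝ) + 1) ≤ 2 * Real.sqrt d := by
    have e1 : ((m : ℝ) + 1) ^ 2 ≤ 4 * d := by
      have : (m + 1) ^ 2 ≤ 4 * d := (hmsq m).trans (Nat.mul_le_mul_left _ hm2)
      exact_mod_cast this
    have e2 : (m : ℝ) + 1 ≤ Real.sqrt (4 * d) := Real.le_sqrt_of_sq_le e1
    have e3 : Real.sqrt (4 * (d : ℝ)) = 2 * Real.sqrt d := by
      rw [Real.sqrt_mul (by norm_num), show (4 : ℝ) = 2 ^ 2 by norm_num,
        Real.sqrt_sq (by norm_num)]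
    linarith
  have hsd : 12 / ε ≤ Real.sqrt d := by
    apply Real.le_sqrt_of_sq_le
    rw [div_pow]
    norm_num
    exact hd144
  have hsd2 : Real.sqrt d * Real.sqrt d = d := Real.mul_self_sqrt hd0.le
  have hsd1 : 1 ≤ Real.sqrt d := by
    rw [Real.one_le_sqrt]; linarith
  have hloss : 2 * (m : ℝ) + 4 ≤ (ε / 2) * d := by
    rw [div_le_iff₀ hε] at hsd
    have e1 : 6 * Real.sqrt d ≤ (ε / 2) * d := by nlinarith
    linarith
  obtain ⟨a, ha⟩ : ∃ a : ℕ, a + (2 * m + 2) = d := by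
    refine ⟨d - (2 * m + 2), Nat.sub_add_cancel ?_⟩
    have : 2 * (m : ℝ) + 4 ≤ d := by nlinarith
    have : 2 * m + 4 ≤ d := by exact_mod_cast this
    omega
  have haR : (a : ℝ) + (2 * m + 2) = d := by exact_mod_cast ha
  have ha3 : 3 ≤ a := by
    have : (3 : ℝ) ≤ a := by nlinarith
    exact_mod_cast this
  obtain ⟨G, g1, g2, g3⟩ := lit_lower a (2 * m + 2) q k hq4 ha3 (by
    have e1 : a - 1 ≤ 2 ^ (m + 1) := by omega
    calc (a - 1) ^ 2 ≤ (2 ^ (m + 1)) ^ 2 := Nat.pow_le_pow_left e1 2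
      _ = 2 ^ (2 * m + 2) := by rw [← pow_mul]; congr 1; ring
      _ ≤ 2 * 2 ^ (2 * m + 2) := by omega) (by
    have hale : (a : ℝ) ≤ d := by
      have : (0 : ℝ) ≤ m := Nat.cast_nonneg _
      linarith
    have e1 : (a : ℝ) * Real.log q + 1 ≤ 2 * (d * Real.log x) := by
      have e2 : (a : ℝ) * Real.log q ≤ d * Real.log x := mul_le_mul hale hlogqx hlogq0 hd0.le
      have e3 : 1 ≤ d * Real.log x := by nlinarith
      linarith
    have e4 : 2 * (q : ℝ) * (a * Real.log q + 1) ≤ 2 * z * (2 * (d * Real.log x)) := by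
      apply mul_le_mul (by linarith) e1 _ (by positivity)
      positivity
    have e5 : 1 ≤ z * (d * Real.log x) := by
      have : 1 ≤ d * Real.log x := by nlinarith
      nlinarith
    have e6 : z * (d * (5 * Real.log x)) ≤ z * (d * x ^ (ε / 4)) := by
      apply mul_le_mul_of_nonneg_left _ hz0.le
      exact mul_le_mul_of_nonneg_left hx5 hd0.le
    have e7 : z * (d * x ^ (ε / 4)) = k := by
      calc z * (d * x ^ (ε / 4)) = d * (z * x ^ (ε / 4)) := by ring
        _ = k := by rw [hzx, hkx]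
    linarith)
  rw [ha] at g3
  refine ⟨_, G, fun h => g3 h.pred, g1, g2, ?_⟩
  rw [← hx]
  have e1 : ((a - 2 : ℕ) : ℝ) = a - 2 := by
    rw [Nat.cast_sub (by omega)]; norm_num
  push_cast
  rw [Real.log_pow, e1]
  have e2 : (1 - ε / 2) * d ≤ (a : ℝ) - 2 := by linarith
  calc (1 - ε) * (d * Real.log x) ≤ ((1 - ε / 2) * d) * ((1 - ε / 2) * Real.log x) := by
        have : 0 ≤ d * Real.log x := by positivity
        nlinarith [sq_nonneg ε]
    _ ≤ (a - 2) * Real.log q := by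
        apply mul_le_mul e2 hlogq _ (by nlinarith)
        have : 0 ≤ Real.log x := by linarith
        nlinarith

end Pool.Agent.H89.Lit
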