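import Pool.Agent.H89.Lit.Defs

set_option autoImplicit false

/-!
# Littlestone dimension: the upper bound
-/

namespace Pool.Agent.H89.Lit

open Finset

theorem MistakeTree.mono {V : Type} {G : SimpleGraph V} {d : ℕ} {A B : Set V} (h : A ⊆ B)
    (hA : MistakeTree G d A) : MistakeTree G d B := by
  induction d generalizing A B with
  | zero => exact Set.Nonempty.mono h hA
  | succ d ih =>
    obtain ⟨x, h1, h2⟩ := hA
    exact ⟨x, ih (fun v hv => ⟨h hv.1, hv.2⟩) h1, ih (fun v hv => ⟨h hv.1, hv.2⟩) h2⟩

theorem MistakeTree.pred {V : Type} {G : SimpleGraph V} {d : ℕ} {A : Set V}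
    (hA : MistakeTree G (d + 1) A) : MistakeTree G d A := by
  obtain ⟨x, h1, -⟩ := hA
  exact h1.mono (fun v hv => hv.1)

theorem MistakeTree.le {V : Type} {G : SimpleGraph V} {d e : ℕ} {A : Set V} (h : d ≤ e)
    (hA : MistakeTree G e A) : MistakeTree G d A := by
  induction e with
  | zero => obtain rfl : d = 0 := by omega
            exact hA
  | succ e ih =>
    rcases Nat.lt_or_ge e d with h1 | h1
    · obtain rfl : d = e + 1 := by omega
      exact hA
    · exact ih h1 hA.pred

/-- `∑_{i=1}^{D} C(h, i)` -/
def S (h D : ℕ) : ℕ := ∑ i ∈ range D, h.choose (i + 1)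

theorem S_succ (h D : ℕ) : 1 + S h D + S h (D + 1) = S (h + 1) (D + 1) := by
  unfold S
  induction D with
  | zero => simp [add_comm]
  | succ D ih =>
    rw [sum_range_succ (fun i => h.choose (i + 1)) (D + 1),
      sum_range_succ (fun i => (h + 1).choose (i + 1)) (D + 1), ← ih,
      sum_range_succ (fun i => h.choose (i + 1)) D, Nat.choose_succ_succ h (D + 1)]
    ring

theorem S_mono {h h' D : ℕ} (hh : h ≤ h') : S h D ≤ S h' D :=
  sum_le_sum fun _ _ => Nat.choose_le_choose _ hh

open scoped Classical in
/-- a set `A` of vertices without mistake tree of depth `D`, with no clique of more than `a`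
vertices and no independent set of more than `b` vertices -/
theorem card_le {V : Type} (G : SimpleGraph V) (h : ℕ) : ∀ (D a b : ℕ) (A : Finset V), a + b = h →
    ¬ MistakeTree G D A → (∀ S ⊆ A, G.IsClique S → S.card ≤ a) →
    (∀ S ⊆ A, Gᶜ.IsClique S → S.card ≤ b) → A.card ≤ S h D := by
  induction h with
  | zero =>
    intro D a b A hab _ hc _
    have ha : a = 0 := by omega
    subst ha
    rcases A.eq_empty_or_nonempty with rfl | ⟨x, hx⟩
    · simp
    · exfalso
      have := hc {x} (by simpa using hx) (by simp)
      simp at this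
  | succ h ih =>
    intro D a b A hab ht hc hi
    cases D with
    | zero =>
      have : A = ∅ := by
        by_contra hne
        apply ht
        obtain ⟨x, hx⟩ := Finset.nonempty_iff_ne_empty.2 hne
        exact ⟨x, hx⟩
      rw [this]
      simp
    | succ D =>
      rcases A.eq_empty_or_nonempty with rfl | ⟨x, hx⟩
      · simp
      have ha : 1 ≤ a := by simpa using hc {x} (by simpa using hx) (by simp)
      have hb : 1 ≤ b := by simpa using hi {x} (by simpa using hx) (by simp)
      set R := A.filter (fun v => G.Adj x v) with hR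
      set B := A.filter (fun v => v ≠ x ∧ ¬ G.Adj x v) with hB
      have hcard : A.card ≤ 1 + (R.card + B.card) := by
        have h1 : A ⊆ {x} ∪ (R ∪ B) := by
          intro v hv
          by_cases hvx : v = x
          · simp [hvx]
          · by_cases hadj : G.Adj x v
            · simp [hR, hv, hadj]
            · simp [hB, hv, hadj, hvx]
        calc A.card ≤ ({x} ∪ (R ∪ B)).card := card_le_card h1
          _ ≤ ({x} : Finset V).card + (R ∪ B).card := card_union_le _ _
          _ ≤ 1 + (R.card + B.card) := by
              rw [card_singleton]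
              exact Nat.add_le_add_left (card_union_le _ _) _
      have hRc : ∀ S ⊆ R, G.IsClique S → S.card ≤ a - 1 := by
        intro S hS hcl
        have hxS : x ∉ S := by
          intro hxS
          have := hS hxS
          simp [hR] at this
        have := hc (insert x S) (by
          intro v hv
          rcases mem_insert.1 hv with rfl | hv
          · exact hx
          · exact (mem_filter.1 (hS hv)).1) (by
          rw [coe_insert]
          apply hcl.insert
          intro v hv _
          exact (mem_filter.1 (hS hv)).2)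
        rw [card_insert_of_notMem hxS] at this
        omega
      have hRi : ∀ S ⊆ R, Gᶜ.IsClique S → S.card ≤ b := fun S hS =>
        hi S (hS.trans (filter_subset _ _))
      have hBi : ∀ S ⊆ B, Gᶜ.IsClique S → S.card ≤ b - 1 := by
        intro S hS hcl
        have hxS : x ∉ S := by
          intro hxS
          have := hS hxS
          simp [hB] at this
        have := hi (insert x S) (by
          intro v hv
          rcases mem_insert.1 hv with rfl | hv
          · exact hx
          · exact (mem_filter.1 (hS hv)).1) (by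
          rw [coe_insert]
          apply hcl.insert
          intro v hv hne
          rw [SimpleGraph.compl_adj]
          exact ⟨hne, (mem_filter.1 (hS hv)).2.2⟩)
        rw [card_insert_of_notMem hxS] at this
        omega
      have hBc : ∀ S ⊆ B, G.IsClique S → S.card ≤ a := fun S hS =>
        hc S (hS.trans (filter_subset _ _))
      have hRt : ¬ MistakeTree G (D + 1) (R : Set V) := fun h1 =>
        ht (h1.mono (by intro v hv; exact (mem_filter.1 hv).1))
      have hBt : ¬ MistakeTree G (D + 1) (B : Set V) := fun h1 =>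
        ht (h1.mono (by intro v hv; exact (mem_filter.1 hv).1))
      have hor : ¬ MistakeTree G D (R : Set V) ∨ ¬ MistakeTree G D (B : Set V) := by
        by_contra hcon
        push Not at hcon
        apply ht
        refine ⟨x, hcon.1.mono ?_, hcon.2.mono ?_⟩
        · intro v hv
          exact ⟨(mem_filter.1 hv).1, (mem_filter.1 hv).2⟩
        · intro v hv
          exact ⟨(mem_filter.1 hv).1, (mem_filter.1 hv).2.2⟩
      have e := S_succ h D
      rcases hor with h1 | h1
      · have h2 := ih D (a - 1) b R (by omega) h1 hRc hRi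
        have h3 := ih (D + 1) a (b - 1) B (by omega) hBt hBc hBi
        omega
      · have h2 := ih (D + 1) (a - 1) b R (by omega) hRt hRc hRi
        have h3 := ih D a (b - 1) B (by omega) h1 hBc hBi
        omega

theorem card_le_of_noMono {n : ℕ} (G : SimpleGraph (Fin n)) {d k : ℕ} (hk : 1 ≤ k)
    (hd : LittlestoneLe G d) (h1 : G.CliqueFree k) (h2 : Gᶜ.CliqueFree k) :
    n ≤ S (2 * (k - 1)) (d + 1) := by
  have key : ∀ H : SimpleGraph (Fin n), H.CliqueFree k → ∀ S : Finset (Fin n), H.IsClique S →
      S.card ≤ k - 1 := by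
    intro H hH S hS
    by_contra hcon
    obtain ⟨T, hT, hTc⟩ := exists_subset_card_eq (show k ≤ S.card by omega)
    refine hH T ?_
    rw [SimpleGraph.isNClique_iff]
    exact ⟨hS.subset (by exact_mod_cast hT), hTc⟩
  have := card_le G (2 * (k - 1)) (d + 1) (k - 1) (k - 1) univ (by omega) (by
    rw [coe_univ]; exact hd) (fun S _ hS => key G h1 S hS) (fun S _ hS => key Gᶜ h2 S hS)
  rwa [card_univ, Fintype.card_fin] at this

/-- `S h D ≤ t ^ (-D) (1 + t) ^ h` for `0 < t ≤ 1` -/
theorem S_le_gen (h D : ℕ) (t : ℝ) (ht : 0 < t) (ht1 : t ≤ 1) :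
    (S h D : ℝ) ≤ (1 + t) ^ h / t ^ D := by
  rw [le_div_iff₀ (by positivity)]
  have h1 : (1 + t) ^ h = ∑ m ∈ range (h + 1), t ^ m * (h.choose m : ℝ) := by
    rw [add_comm, add_pow]
    simp
  have h2 : (S h D : ℝ) * t ^ D ≤ ∑ i ∈ range D, t ^ (i + 1) * (h.choose (i + 1) : ℝ) := by
    unfold S
    push_cast
    rw [sum_mul]
    apply sum_le_sum
    intro i hi
    rw [mem_range] at hi
    rw [mul_comm]
    apply mul_le_mul_of_nonneg_right _ (Nat.cast_nonneg _)
    exact pow_le_pow_of_le_one ht.le ht1 (by omega)
  have h3 : ∑ i ∈ range D, t ^ (i + 1) * (h.choose (i + 1) : ℝ) ≤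
      ∑ m ∈ range (D + 1), t ^ m * (h.choose m : ℝ) := by
    rw [sum_range_succ' (fun m => t ^ m * (h.choose m : ℝ)) D]
    simp
  have h4 : ∑ m ∈ range (D + 1), t ^ m * (h.choose m : ℝ) ≤
      ∑ m ∈ range (h + 1), t ^ m * (h.choose m : ℝ) := by
    have h5 : ∑ m ∈ range (D + 1), t ^ m * (h.choose m : ℝ) ≤
        ∑ m ∈ range (max (D + 1) (h + 1)), t ^ m * (h.choose m : ℝ) := by
      apply sum_le_sum_of_subset_of_nonneg (range_mono (le_max_left _ _))
      intro i _ _
      positivity
    refine h5.trans (le_of_eq ?_)
    symm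
    apply sum_subset (range_mono (le_max_right _ _))
    intro i _ hi
    rw [mem_range, not_lt] at hi
    rw [Nat.choose_eq_zero_of_lt (by omega)]
    simp
  rw [h1]
  linarith

end Pool.Agent.H89.Lit
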